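import Pool.Agent.H116.GAdic8

namespace Pool.Agent.Results.MP_fbe023_nt.FreeElements

open Pool.Agent.H116.GA

/-- For every order `h`, every element `a ≥ 2` of `A_G(W i)` that is free with respect to some
other part `W k` is removable; and for every `h ≥ 2` and `g j = 2 ^ j` there is a partition into
`h` infinite parts with infinitely many removable elements. -/
theorem result :
    (∀ (h : ℕ) (g : ℕ → ℕ), IsGAdic g → ∀ W : Fin h → Set ℕ, IsPartition W →
      ∀ i k : Fin h, k ≠ i → ∀ a ∈ AG g (W i), 2 ≤ a → Free g (W i) (W k) a →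
        AsympBasis h (AA g W \ {a})) ∧
    (∀ h : ℕ, 2 ≤ h → ∃ W : Fin h → Set ℕ, IsPartition W ∧ (∀ k, (W k).Infinite) ∧
      {a | a ∈ AA (fun j => 2 ^ j) W ∧ AsympBasis h (AA (fun j => 2 ^ j) W \ {a})}.Infinite) := by
  refine ⟨fun h g hg W hW i k hik a ha ha2 hf => free_removable_gen hg hW hik ha ha2 hf, ?_⟩
  intro h hh
  have hg : IsGAdic (fun j => 2 ^ j) := by
    refine ⟨by norm_num, ?_, ?_⟩
    · exact pow_right_strictMono₀ (by norm_num)
    · intro i; exact pow_dvd_pow 2 (Nat.le_succ i)
  have hW : IsPartition (fun k : Fin h => {j : ℕ | j % (h + 1) - 1 = k.val}) := by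
    refine ⟨?_, ?_, ?_⟩
    · intro k
      refine ⟨k.val + 1, ?_⟩
      have := k.isLt
      change (k.val + 1) % (h + 1) - 1 = k.val
      rw [Nat.mod_eq_of_lt (by omega)]; rfl
    · intro i k hik
      rw [Set.disjoint_left]
      intro j h1 h2
      have h1 : j % (h + 1) - 1 = i.val := h1
      have h2 : j % (h + 1) - 1 = k.val := h2
      exact hik (Fin.ext (by omega))
    · ext j
      simp only [Set.mem_iUnion, Set.mem_univ, iff_true]
      have := Nat.mod_lt j (show 0 < h + 1 by omega)
      exact ⟨⟨j % (h + 1) - 1, by omega⟩, rfl⟩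
  refine ⟨fun k : Fin h => {j : ℕ | j % (h + 1) - 1 = k.val}, hW, ?_, ?_⟩
  · intro k
    apply Set.infinite_of_injective_forall_mem (f := fun n : ℕ => (h + 1) * n + (k.val + 1))
    · intro a b hab
      have hab : (h + 1) * a + (k.val + 1) = (h + 1) * b + (k.val + 1) := hab
      exact Nat.eq_of_mul_eq_mul_left (show 0 < h + 1 by omega) (by omega)
    · intro n
      have := k.isLt
      change ((h + 1) * n + (k.val + 1)) % (h + 1) - 1 = k.val
      rw [Nat.mul_add_mod, Nat.mod_eq_of_lt (by omega)]; rfl
  · apply Set.infinite_of_injective_forall_mem (f := fun n : ℕ => 2 ^ ((h + 1) * (n + 1)))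
    · intro a b hab
      have hab : 2 ^ ((h + 1) * (a + 1)) = 2 ^ ((h + 1) * (b + 1)) := hab
      have h1 := Nat.pow_right_injective (le_refl 2) hab
      have h2 := Nat.eq_of_mul_eq_mul_left (show 0 < h + 1 by omega) h1
      omega
    · intro n
      have hj : (h + 1) * (n + 1) ∈
          (fun k : Fin h => {j : ℕ | j % (h + 1) - 1 = k.val}) ⟨0, by omega⟩ := by
        change (h + 1) * (n + 1) % (h + 1) - 1 = 0
        rw [Nat.mul_mod_right]
      have hm := single_mem hg _ hj
      refine ⟨Or.inr (Set.mem_iUnion.2 ⟨_, hm⟩), ?_⟩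
      refine free_removable_gen hg hW (i := ⟨0, by omega⟩) (k := ⟨1, by omega⟩)
        (by intro hc; rw [Fin.ext_iff] at hc; exact absurd hc (by norm_num)) hm ?_ ?_
      · calc 2 = 2 ^ 1 := by norm_num
          _ ≤ 2 ^ ((h + 1) * (n + 1)) := Nat.pow_le_pow_right (by norm_num) (by
              have : 0 < (h + 1) * (n + 1) := Nat.mul_pos (by omega) (by omega)
              omega)
      · intro v hv
        have hv : v % (h + 1) - 1 = 1 := hv
        have hv2 : v % (h + 1) = 2 := by omega
        have hdm := Nat.div_add_mod v (h + 1)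
        rw [hv2] at hdm
        have hv1 : (v - 1) % (h + 1) = 1 := by
          have : v - 1 = (h + 1) * (v / (h + 1)) + 1 := by omega
          rw [this, Nat.mul_add_mod, Nat.mod_eq_of_lt (by omega)]
        refine ⟨by change 2 ^ (v + 1) = 2 * 2 ^ v; rw [pow_succ]; ring, v - 1, by omega,
          fun t h1 h2 => ?_, ?_⟩
        · have : t = v - 1 := by omega
          rw [this]
          change (v - 1) % (h + 1) - 1 = 0
          rw [hv1]
        · have hne : v - 1 ≠ (h + 1) * (n + 1) := by
            intro hc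
            rw [hc, Nat.mul_mod_right] at hv1
            omega
          rw [digit_single hg hne]
          exact Nat.sub_pos_of_lt (two_le_quot hg (v - 1))

end Pool.Agent.Results.MP_fbe023_nt.FreeElements
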