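import Pool.Agent.H116.GAdic4

namespace Pool.Agent.Results.MP_fbe023_nt.OrderTwo

open Pool.Agent.H116.GA

/-- Complete answer for `h = 2`: for every `G`-adic sequence `g` and every partition `W` of the
naturals into two parts, the removable elements of `A = {0} ∪ A_G(𝒲)` are `0` and those
`a ∈ A_G(W i)` for which the other part `W k` is finite or `Free g (W i) (W k) a` holds. -/
theorem result (g : ℕ → ℕ) (hg : IsGAdic g) (W : Fin 2 → Set ℕ) (hW : IsPartition W) :
    {a | a ∈ AA g W ∧ AsympBasis 2 (AA g W \ {a})} =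
      {0} ∪ {a | ∃ i k : Fin 2, k ≠ i ∧ a ∈ AG g (W i) ∧
        ((W k).Finite ∨ Free g (W i) (W k) a)} := by
  have htwo : ∀ i k : Fin 2, k ≠ i → ∀ k', k' ≠ i → k' = k := by
    intro i k h1 k' h2
    fin_cases i <;> fin_cases k <;> fin_cases k' <;> simp_all
  ext a
  constructor
  · rintro ⟨haA, hA⟩
    rcases haA with ha0 | haU
    · exact Or.inl ha0
    · right
      obtain ⟨i, hi⟩ := Set.mem_iUnion.1 haU
      obtain ⟨k, hk⟩ : ∃ k : Fin 2, k ≠ i := exists_ne i
      refine ⟨i, k, hk, hi, ?_⟩
      by_contra hc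
      rw [not_or] at hc
      exact not_free_not_removable hg hW hk hi hc.1 hc.2 hA
  · rintro (ha0 | ⟨i, k, hk, hi, hc⟩)
    · have ha0 : a = 0 := ha0
      subst ha0
      refine ⟨Or.inl rfl, ?_⟩
      rw [AA_diff_zero hg]
      exact AU_asymp hg hW (by norm_num)
    · refine ⟨Or.inr (Set.mem_iUnion.2 ⟨i, hi⟩), ?_⟩
      rcases hc with hc | hc
      · have := asymp_of_finite hg hW (i := i) (fun k' hk' => (htwo i k hk k' hk') ▸ hc) {a} (by
          intro b hb
          rw [Finset.mem_singleton] at hb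
          rw [hb]; exact hi)
        simpa using this
      · exact free_removable hg hW hk hi hc

end Pool.Agent.Results.MP_fbe023_nt.OrderTwo
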