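import Pool.Agent.H116.GAdic3

namespace Pool.Agent.Results.MP_fbe023_nt.ThickPartitions

open Pool.Agent.H116.GA

/-- For `h ≥ 2`, a `G`-adic sequence `g` and a partition `W` of the naturals into `h` parts, let
`A = {0} ∪ A_G(𝒲)`.  Removing `0` leaves an asymptotic basis of order `h`.  If every part other
than `W i` is thick, then an element `a` of `A_G(W i)` is removable exactly when every part other
than `W i` is finite. -/
theorem result (h : ℕ) (hh : 2 ≤ h) (g : ℕ → ℕ) (hg : IsGAdic g) (W : Fin h → Set ℕ)
    (hW : IsPartition W) :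
    AsympBasis h (AA g W \ {0}) ∧
    ∀ i : Fin h, (∀ k, k ≠ i → Thick g h (W k)) → ∀ a ∈ AG g (W i),
      (AsympBasis h (AA g W \ {a}) ↔ ∀ k, k ≠ i → (W k).Finite) := by
  refine ⟨?_, ?_⟩
  · rw [AA_diff_zero hg]
    exact AU_asymp hg hW (by omega)
  · intro i hthick a ha
    constructor
    · intro hA k hk
      by_contra hinf
      exact not_asymp hg hW ha hthick hk hinf hA
    · intro hfin
      have := asymp_of_finite hg hW hfin {a} (by
        intro b hb
        rw [Finset.mem_singleton] at hb
        rw [hb]; exact ha)
      simpa using this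

end Pool.Agent.Results.MP_fbe023_nt.ThickPartitions
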